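import Pool.Agent.TH942.ES.Ext
import Pool.Agent.TH942.LS.LogAb
import Pool.Agent.TH942.LS.Main

/-!
# Means of Euler products with arbitrary weights

Generalisation of `TH942.LS.Rank` and `TH942.LS.Curve` to systems of primes.
-/

set_option autoImplicit false

open MeasureTheory Filter Topology Set Complex
open Pool.Agent.TH942.LS
open Pool.Agent.TH942.ES
open Pool.Agent.TH942.SL (DD dd_deriv)

namespace Pool.Agent.Y754.BL

variable {X : Type} {d : ℕ} {N : X → ℕ} {α : X → Fin d → ℂ} {Ψ : ℂ → ℂ} {e : X → ℕ}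

/-- the local structure at the centre -/
theorem center {m : ℕ} (hΨ : Differentiable ℂ Ψ) (hne : ∀ s : ℂ, 0 < s.re → Ψ s ≠ 0)
    (hm : analyticOrderAt Ψ 0 = m) : ∃ Q : ℂ → ℂ, (∀ w, AnalyticAt ℂ Q w) ∧
      (∀ w, w ≠ 0 → Ψ w = w ^ m * Q w) ∧ ∀ x : ℝ, 0 ≤ x → Q x ≠ 0 := by
  obtain ⟨g, hg, hg0, hfg⟩ := ((hΨ.analyticAt 0).analyticOrderAt_eq_natCast (n := m)).1 hm
  set Q : ℂ → ℂ := fun w => if w = 0 then g 0 else Ψ w / w ^ m with hQ
  have hQne : ∀ w, w ≠ 0 → Q w = Ψ w / w ^ m := fun w hw => by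
    rw [hQ]
    simp only
    rw [if_neg hw]
  have hQ0 : Q 0 = g 0 := by
    rw [hQ]
    simp only
    rw [if_pos trivial]
  have hQg : Q =ᶠ[𝓝 0] g := by
    filter_upwards [hfg] with w hw
    by_cases h : w = 0
    · rw [h, hQ0]
    · rw [hQne w h, hw, sub_zero, smul_eq_mul]
      field_simp
  refine ⟨Q, fun w => ?_, fun w hw => ?_, fun x hx => ?_⟩
  · by_cases h : w = 0
    · rw [h]
      exact hg.congr hQg.symm
    · have h1 : AnalyticAt ℂ (fun z => Ψ z / z ^ m) w :=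
        (hΨ.analyticAt w).div (analyticAt_id.pow m) (pow_ne_zero _ h)
      refine h1.congr ?_
      filter_upwards [isOpen_ne.mem_nhds h] with z hz
      exact (hQne z hz).symm
  · rw [hQne w hw]
    field_simp
  · rcases hx.lt_or_eq with h | h
    · have hxc : (x : ℂ) ≠ 0 := by exact_mod_cast h.ne'
      rw [hQne _ hxc]
      exact div_ne_zero (hne x (by simpa using h)) (pow_ne_zero _ hxc)
    · rw [← h, Complex.ofReal_zero, hQ0]
      exact hg0

/-- the logarithmic derivative near the centre -/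
theorem logder {m : ℕ} {Q : ℂ → ℂ} (h1 : ∀ w, AnalyticAt ℂ Q w)
    (h2 : ∀ w, w ≠ 0 → Ψ w = w ^ m * Q w) (h3 : ∀ x : ℝ, 0 ≤ x → Q x ≠ 0) {v : ℝ} (hv : 0 < v) :
    deriv Ψ v / Ψ v = m / v + deriv Q v / Q v := by
  have hvc : (v : ℂ) ≠ 0 := by exact_mod_cast hv.ne'
  have h4 : Ψ =ᶠ[𝓝 (v : ℂ)] fun w => w ^ m * Q w := by
    filter_upwards [isOpen_ne.mem_nhds hvc] with w hw
    exact h2 w hw
  have h5 : HasDerivAt (fun w : ℂ => w ^ m * Q w)
      ((m * (v : ℂ) ^ (m - 1) * 1) * Q v + (v : ℂ) ^ m * deriv Q v) v :=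
    ((hasDerivAt_id (v : ℂ)).pow m).mul (h1 v).differentiableAt.hasDerivAt
  rw [h4.deriv_eq, h4.eq_of_nhds, h5.deriv]
  have hQ := h3 v hv.le
  rcases Nat.eq_zero_or_pos m with hm0 | hm0
  · rw [hm0]
    simp
  · obtain ⟨k, hk⟩ : ∃ k, m = k + 1 := ⟨m - 1, by omega⟩
    rw [hk]
    simp only [Nat.add_sub_cancel]
    push_cast
    field_simp
    ring

section gen

variable (E : Sys N α)
include E

/-- **bounds on the real axis, and the antiderivative** -/
theorem real_axis (he : Function.Injective e) (hΨ : Differentiable ℂ Ψ) (H : Con N α Ψ)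
    (hne : ∀ s : ℂ, 0 < s.re → Ψ s ≠ 0) {m : ℕ} (hm : analyticOrderAt Ψ 0 = m) :
    (∃ C : ℝ, ∀ v : ℝ, 0 < v → v * ‖Qf Ψ (deriv (GG N α)) v‖ ≤ C) ∧
    ∃ (J : ℝ → ℂ) (C : ℝ), (∀ v : ℝ, 0 < v → HasDerivAt J (Qf Ψ (deriv (GG N α)) v) v) ∧
      (∀ v : ℝ, 1 ≤ v → ‖J v‖ ≤ C) ∧
      ∀ v : ℝ, 0 < v → v ≤ 1 → ‖J v - (m : ℝ) * Real.log v‖ ≤ C := by
  obtain ⟨Q, h1, h2, h3⟩ := center hΨ hne hm
  obtain ⟨CG, hCG1, hCG2⟩ := E.sector_bounds (κ := 1) one_pos le_rfl
  have hG1 : ∀ v : ℝ, 0 < v → ‖GG N α v‖ ≤ CG := fun v hv => hCG1 v (by simpa using hv) (by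
    rw [one_mul, Complex.norm_real, Real.norm_eq_abs, abs_of_pos hv, Complex.ofReal_re])
  have hG2 : ∀ v : ℝ, 0 < v → ‖deriv (GG N α) v‖ ≤ CG / v := fun v hv => by
    have := hCG2 v (by simpa using hv) (by
      rw [one_mul, Complex.norm_real, Real.norm_eq_abs, abs_of_pos hv, Complex.ofReal_re])
    rwa [Complex.norm_real, Real.norm_eq_abs, abs_of_pos hv] at this
  have hCG0 : 0 ≤ CG := (norm_nonneg _).trans (hG1 1 one_pos)
  have hcont : ContinuousOn (fun v : ℝ => deriv Q (v : ℂ) / Q v) (Icc 0 3) := by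
    intro v hv
    have h4 : ContinuousAt (fun v : ℝ => Q (v : ℂ)) v :=
      ContinuousAt.comp (f := fun v : ℝ => (v : ℂ)) (h1 v).continuousAt (by fun_prop)
    have h5 : ContinuousAt (fun v : ℝ => deriv Q (v : ℂ)) v :=
      ContinuousAt.comp (f := fun v : ℝ => (v : ℂ)) (h1 v).deriv.continuousAt (by fun_prop)
    exact (h5.div h4 (h3 v hv.1)).continuousWithinAt
  obtain ⟨C₁, hC₁⟩ := isCompact_Icc.exists_bound_of_continuousOn hcont
  have hC10 : 0 ≤ C₁ := (norm_nonneg _).trans (hC₁ 0 ⟨le_rfl, by norm_num⟩)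
  have D := E.dat he
  have HC := E.cont he H
  have hl2 := D.δ0
  constructor
  · have hnear : ∀ v : ℝ, 0 < v → v ≤ 3 →
        v * ‖Qf Ψ (deriv (GG N α)) v‖ ≤ m + 3 * C₁ + CG := by
      intro v hv hv3
      unfold Qf
      rw [logder h1 h2 h3 hv]
      have e4 : ‖(m : ℂ) / v‖ = m / v := by
        rw [norm_div, Complex.norm_natCast, Complex.norm_real, Real.norm_eq_abs, abs_of_pos hv]
      have e5 := hC₁ v ⟨hv.le, hv3⟩
      have e6 : ‖(m : ℂ) / v + deriv Q v / Q v - deriv (GG N α) v‖ ≤ m / v + C₁ + CG / v := by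
        refine (norm_sub_le _ _).trans (add_le_add ?_ (hG2 v hv))
        rw [← e4]
        exact (norm_add_le _ _).trans (add_le_add le_rfl e5)
      calc v * _ ≤ v * (m / v + C₁ + CG / v) := mul_le_mul_of_nonneg_left e6 hv.le
        _ = m + v * C₁ + CG := by field_simp
        _ ≤ _ := by
          have := mul_le_mul_of_nonneg_right hv3 hC10
          linarith
    set S₀ : ℝ := ∑' n, |cN N α e n| * Real.exp (-(1 * lamN N e n)) with hS0
    have hS00 : 0 ≤ S₀ := tsum_nonneg fun n => by positivity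
    refine ⟨max (m + 3 * C₁ + CG) (2 / Real.log 2 * S₀), fun v hv => ?_⟩
    rcases le_or_gt v 3 with h | h
    · exact (hnear v hv h).trans (le_max_left _ _)
    · refine le_trans ?_ (le_max_right _ _)
      have h4 : (1 : ℝ) < (v : ℂ).re := by
        rw [Complex.ofReal_re]
        linarith
      have h5 : Qf Ψ (deriv (GG N α)) v = P (lamN N e) (cN N α e) v := (HC.eq _ h4).symm
      have h6 := P_le D h4
      rw [← hS0, Complex.ofReal_re] at h6
      rw [h5]
      have h7 : 0 < v - 1 := by linarith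
      calc v * ‖P (lamN N e) (cN N α e) v‖ ≤ v * (2 / Real.log 2 * S₀ / (v - 1) ^ 2) := by gcongr
        _ = (v / (v - 1) ^ 2) * (2 / Real.log 2 * S₀) := by ring
        _ ≤ 1 * (2 / Real.log 2 * S₀) := by
          refine mul_le_mul_of_nonneg_right ?_ (by positivity)
          rw [div_le_iff₀ (by positivity)]
          nlinarith
        _ = _ := one_mul _
  · have hUo : IsOpen {z : ℂ | 0 < z.re} := isOpen_lt continuous_const Complex.continuous_re
    have hUc : Convex ℝ {z : ℂ | 0 < z.re} := convex_halfSpace_re_gt 0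
    have hqd : DifferentiableOn ℂ (fun s => deriv Ψ s / Ψ s) {z : ℂ | 0 < z.re} := fun s hs =>
      ((hΨ.analyticAt s).deriv.differentiableAt.div (hΨ s) (hne s hs)).differentiableWithinAt
    obtain ⟨F, hF⟩ := Pool.Agent.TH942.SL.convex_primitive hUo hUc hqd
    set J : ℝ → ℂ := fun v => F v - GG N α v with hJ
    have hJd : ∀ v : ℝ, 0 < v → HasDerivAt J (Qf Ψ (deriv (GG N α)) v) v := by
      intro v hv
      have hvc : (v : ℂ) ∈ {z : ℂ | 0 < z.re} := by simpa using hv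
      exact (hF _ hvc).comp_ofReal.sub ((E.GG_diff hvc).hasDerivAt).comp_ofReal
    -- large `v`
    obtain ⟨CJ, hCJ⟩ : ∃ CJ : ℝ, ∀ v ∈ Icc (1 : ℝ) 2, ‖J v‖ ≤ CJ :=
      isCompact_Icc.exists_bound_of_continuousOn fun v hv =>
        (hJd v (by linarith [hv.1])).continuousAt.continuousWithinAt
    set S₀ : ℝ := ∑' n, |cN N α e n| * Real.exp (-(1 * lamN N e n)) with hS0
    have hDD : ∀ v : ℝ, 1 ≤ v → ‖DD (lamN N e) (cN N α e) v‖ ≤ S₀ := by
      intro v hv
      refine tsum_of_norm_bounded D.sum.hasSum fun n => ?_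
      rw [norm_mul, Complex.norm_real, Real.norm_eq_abs, Complex.norm_exp, Complex.neg_re,
        Complex.re_mul_ofReal, Complex.ofReal_re]
      refine mul_le_mul_of_nonneg_left (Real.exp_le_exp.2 ?_) (abs_nonneg _)
      have h4 : 0 ≤ lamN N e n := hl2.le.trans (D.lam_ge n)
      have := mul_le_mul_of_nonneg_right hv h4
      linarith
    have hlarge : ∀ v : ℝ, 2 ≤ v → ‖J v‖ ≤ CJ + 2 * S₀ := by
      intro v hv
      have h4 : ∀ x ∈ Ici (2 : ℝ), HasDerivWithinAt
          (fun x : ℝ => J x + DD (lamN N e) (cN N α e) x) ((fun _ => (0 : ℂ)) x) (Ici 2) x := by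
        intro x hx
        have hx2 : (2 : ℝ) ≤ x := hx
        have hxc : (1 : ℝ) < (x : ℂ).re := by
          rw [Complex.ofReal_re]
          linarith
        have h5 := (hJd x (by linarith)).add ((dd_deriv D hxc).comp_ofReal)
        have h6 : Qf Ψ (deriv (GG N α)) x + -P (lamN N e) (cN N α e) x = 0 := by
          rw [HC.eq _ hxc]
          unfold Qf
          ring
        rw [h6] at h5
        exact h5.hasDerivWithinAt
      have h5 := (convex_Ici (2 : ℝ)).norm_image_sub_le_of_norm_hasDerivWithin_le (C := 0) h4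
        (fun x _ => by rw [norm_zero]) (self_mem_Ici (a := (2 : ℝ))) (show v ∈ Ici (2 : ℝ) from hv)
      rw [zero_mul] at h5
      have h6 : J v + DD (lamN N e) (cN N α e) v = J (2 : ℝ) + DD (lamN N e) (cN N α e) ((2 : ℝ) : ℂ) :=
        sub_eq_zero.1 (norm_eq_zero.1 (le_antisymm h5 (norm_nonneg _)))
      have h7 : J v = J (2 : ℝ) + DD (lamN N e) (cN N α e) ((2 : ℝ) : ℂ) -
          DD (lamN N e) (cN N α e) v := by
        rw [← h6]
        ring
      rw [h7]
      have h8 := hCJ 2 ⟨by norm_num, le_rfl⟩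
      have h9 := hDD 2 (by norm_num)
      have h10 := hDD v (by linarith)
      calc _ ≤ ‖J (2 : ℝ) + DD (lamN N e) (cN N α e) ((2 : ℝ) : ℂ)‖ +
            ‖DD (lamN N e) (cN N α e) v‖ := norm_sub_le _ _
        _ ≤ (‖J (2 : ℝ)‖ + ‖DD (lamN N e) (cN N α e) ((2 : ℝ) : ℂ)‖) +
            ‖DD (lamN N e) (cN N α e) v‖ := by
            gcongr
            exact norm_add_le _ _
        _ ≤ _ := by linarith
    have hS00 : 0 ≤ S₀ := tsum_nonneg fun n => by positivity
    -- small `v`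
    set B : ℝ := ‖F (1 : ℝ)‖ + C₁ + CG with hB
    have hsmall : ∀ v : ℝ, 0 < v → v ≤ 1 → ‖J v - (m : ℝ) * Real.log v‖ ≤ B := by
      intro v hv hv1
      have h4 : ∀ x ∈ Ioc (0 : ℝ) 1, HasDerivWithinAt
          (fun x : ℝ => F x - (m : ℝ) * (Real.log x : ℂ)) ((fun x : ℝ => deriv Q x / Q x) x)
            (Ioc 0 1) x := by
        intro x hx
        have hxc : (x : ℂ) ∈ {z : ℂ | 0 < z.re} := by simpa using hx.1
        have h5 : HasDerivAt (fun x : ℝ => (Real.log x : ℂ)) ((x⁻¹ : ℝ) : ℂ) x :=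
          (Real.hasDerivAt_log hx.1.ne').ofReal_comp
        have h6 := (hF _ hxc).comp_ofReal.sub (h5.const_mul (((m : ℝ) : ℂ)))
        have h7 : deriv Ψ (x : ℂ) / Ψ x - ((m : ℝ) : ℂ) * ((x⁻¹ : ℝ) : ℂ) = deriv Q x / Q x := by
          rw [logder h1 h2 h3 hx.1]
          push_cast
          ring
        rw [h7] at h6
        exact h6.hasDerivWithinAt
      have h5 := (convex_Ioc (0 : ℝ) 1).norm_image_sub_le_of_norm_hasDerivWithin_le (C := C₁) h4
        (fun x hx => hC₁ x ⟨hx.1.le, by linarith [hx.2]⟩) (show (1 : ℝ) ∈ Ioc (0 : ℝ) 1 by simp)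
        (show v ∈ Ioc (0 : ℝ) 1 from ⟨hv, hv1⟩)
      have h6 : ‖v - 1‖ ≤ 1 := by
        rw [Real.norm_eq_abs, abs_le]
        constructor <;> linarith
      have h7 : ‖F v - (m : ℝ) * (Real.log v : ℂ)‖ ≤ ‖F (1 : ℝ)‖ + C₁ := by
        have h8 : F v - (m : ℝ) * (Real.log v : ℂ) =
            (F v - (m : ℝ) * (Real.log v : ℂ) - (F (1 : ℝ) - (m : ℝ) * (Real.log 1 : ℂ))) +
              F (1 : ℝ) := by
          rw [Real.log_one, Complex.ofReal_zero, mul_zero, sub_zero]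
          ring
        rw [h8]
        refine (norm_add_le _ _).trans ?_
        have h9 : C₁ * ‖v - 1‖ ≤ C₁ * 1 := mul_le_mul_of_nonneg_left h6 hC10
        have h10 := h5.trans h9
        rw [mul_one] at h10
        linarith
      have h8 : J v - (m : ℝ) * Real.log v = (F v - (m : ℝ) * (Real.log v : ℂ)) - GG N α v := by
        rw [hJ]
        ring
      rw [h8]
      refine (norm_sub_le _ _).trans ?_
      rw [hB]
      exact add_le_add h7 (hG1 v hv)
    refine ⟨J, max (CJ + 2 * S₀) B, hJd, fun v hv => ?_, fun v hv hv1 =>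
      (hsmall v hv hv1).trans (le_max_right _ _)⟩
    refine le_trans ?_ (le_max_left _ _)
    rcases le_or_gt v 2 with h | h
    · exact (hCJ v ⟨hv, h⟩).trans (by linarith)
    · exact hlarge v h.le

/-- **The constant of logarithmic growth of the means is the order of vanishing.** -/
theorem growth_eq (he : Function.Injective e) (hΨ : Differentiable ℂ Ψ) (H : Con N α Ψ)
    (hne : ∀ s : ℂ, 0 < s.re → Ψ s ≠ 0) {m : ℕ} (hm : analyticOrderAt Ψ 0 = m)
    {w : ℝ → ℝ} {W β : ℝ} (hw : Wt w W β)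
    (hdini : IntegrableOn (fun u : ℝ => |w u - 1| / u) (Ioo 0 β))
    (hS : ∀ α', 0 < α' → ∃ C T₀ : ℝ, ∀ T, T₀ ≤ T →
      |S (lamN N e) (cN N α e) w T| ≤ C * Real.exp (α' * T)) {ρ : ℝ}
    (hlim : Tendsto (fun T => S (lamN N e) (cN N α e) w T / Real.log T) atTop (𝓝 ρ)) : ρ = m := by
  have D := E.dat he
  have HC := E.cont he H
  have hb := hw.b0
  obtain ⟨⟨CQ, hCQ⟩, J, CJ, hJd, hJ1, hJ0⟩ := real_axis E he hΨ H hne hm
  obtain ⟨C, hC⟩ := EE_asymp D hw HC hne hCQ (J := J) hJd (m := m) (CJ := CJ) hJ1 hJ0 hdini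
  refine limit_eq (S_meas D hw) (fun T₀ => ?_) hlim hb (C := C) fun t ht htb => ?_
  · refine ⟨W * Real.exp (1 * β * |T₀|) *
      ∑' n, |cN N α e n| * Real.exp (-(1 * lamN N e n)), fun T hT hT0 =>
        (S_le D hw hT).trans ?_⟩
    have hW := hw.W0
    have h1 : T ≤ |T₀| := hT0.trans (le_abs_self _)
    have h2 : 0 ≤ ∑' n, |cN N α e n| * Real.exp (-(1 * lamN N e n)) :=
      tsum_nonneg fun n => by positivity
    gcongr
  · have h1 := hC t ht htb
    rw [← L_real D hw HC hne hS ht] at h1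
    have h2 : (t : ℂ) * L (lamN N e) (cN N α e) w t + ((m : ℝ) : ℂ) * Real.log t =
        ((t * (∫ T in Ioi (0 : ℝ), Real.exp (-(t * T)) * S (lamN N e) (cN N α e) w T) -
          m * Real.log (1 / t) : ℝ) : ℂ) := by
      unfold L
      have h3 : ∀ T : ℝ, Complex.exp (-((t : ℂ) * T)) * (S (lamN N e) (cN N α e) w T : ℂ) =
          ((Real.exp (-(t * T)) * S (lamN N e) (cN N α e) w T : ℝ) : ℂ) := fun T => by
        push_cast; rfl
      simp only [h3]
      rw [integral_complex_ofReal, one_div, Real.log_inv]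
      push_cast
      ring
    rw [h2, Complex.norm_real, Real.norm_eq_abs] at h1
    exact h1

/-- a bound for the means excludes zeros -/
theorem zero_free (he : Function.Injective e) (H : Con N α Ψ) {w : ℝ → ℝ} {W β : ℝ}
    (hw : Wt w W β) (htop : ∀ κ, κ < β → ¬ ∀ᵐ x, x ∈ Ioo κ β → w x = 0) {θ : ℝ} (hθ : 0 ≤ θ)
    (hS : ∀ α', β * θ < α' → ∃ C T₀ : ℝ, ∀ T, T₀ ≤ T →
      |S (lamN N e) (cN N α e) w T| ≤ C * Real.exp (α' * T)) {s : ℂ} (hs : θ < s.re) :
    Ψ s ≠ 0 := by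
  have HC := E.cont he H
  have HC' : Cont (lamN N e) (cN N α e) 1 θ Ψ (deriv (GG N α)) :=
    { θ0 := hθ
      Ψd := fun s hs => HC.Ψd s (lt_of_le_of_lt hθ hs)
      Kd := fun s hs => HC.Kd s (lt_of_le_of_lt hθ hs)
      ne := HC.ne
      eq := HC.eq }
  exact no_zeros (E.dat he) hw HC' htop hS hs

omit E in
/-- logarithmic growth is slow growth -/
theorem slow_of_log {f : ℝ → ℝ} {ρ : ℝ}
    (hlim : Tendsto (fun T => f T / Real.log T) atTop (𝓝 ρ)) :
    ∀ α', 0 < α' → ∃ C T₀ : ℝ, ∀ T, T₀ ≤ T → |f T| ≤ C * Real.exp (α' * T) := by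
  intro α' hα
  have h1 : ∀ᶠ T in atTop, |f T / Real.log T - ρ| < 1 := by
    have := (Metric.tendsto_nhds.1 hlim) 1 one_pos
    simpa [Real.dist_eq] using this
  obtain ⟨T₀, hT₀⟩ := h1.exists_forall_of_atTop
  refine ⟨(|ρ| + 1) / α', max T₀ 2, fun T hT => ?_⟩
  have h2 := hT₀ T ((le_max_left _ _).trans hT)
  have h3 : 2 ≤ T := (le_max_right _ _).trans hT
  have h4 : 0 < Real.log T := Real.log_pos (by linarith)
  have h5 : |f T / Real.log T| ≤ |ρ| + 1 := by
    have := abs_sub_abs_le_abs_sub (f T / Real.log T) ρ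
    linarith
  rw [abs_div, abs_of_pos h4, div_le_iff₀ h4] at h5
  have h6 : Real.log T ≤ T := by
    have := Real.log_le_sub_one_of_pos (by linarith : 0 < T)
    linarith
  have h7 : α' * T ≤ Real.exp (α' * T) := by
    have := Real.add_one_le_exp (α' * T)
    linarith
  calc |f T| ≤ (|ρ| + 1) * Real.log T := h5
    _ ≤ (|ρ| + 1) * T := by gcongr
    _ = (|ρ| + 1) / α' * (α' * T) := by field_simp
    _ ≤ _ := by gcongr

/-- the finite sum -/
theorem S_eq_finsum (he : Function.Injective e) {w : ℝ → ℝ} {W β : ℝ} (hw : Wt w W β) {x : ℝ}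
    (hx : 1 < x) : S (lamN N e) (cN N α e) w (Real.log x) =
      ∑ᶠ (v : X) (_ : (N v : ℝ) ≤ x ^ β), w (Real.log (N v) / Real.log x) * cv N α v := by
  classical
  have hT : 0 < Real.log x := Real.log_pos hx
  have hx0 : 0 < x := by linarith
  unfold S
  have h1 : ∑' n, cN N α e n * w (lamN N e n / Real.log x) =
      ∑' v, cv N α v * w (Real.log (N v) / Real.log x) :=
    tsum_cN he (fun c l => c * w (l / Real.log x)) (fun l => by simp)
  rw [h1]
  have h2 : ∀ v : X, ¬ (N v : ℝ) ≤ x ^ β → w (Real.log (N v) / Real.log x) = 0 := by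
    intro v hv
    refine hw.supp _ ?_
    rw [lt_div_iff₀ hT, ← Real.log_rpow hx0]
    push Not at hv
    exact Real.log_lt_log (by positivity) hv
  have h3 : ∀ v : X, (∑ᶠ (_ : (N v : ℝ) ≤ x ^ β), w (Real.log (N v) / Real.log x) * cv N α v) =
      cv N α v * w (Real.log (N v) / Real.log x) := by
    intro v
    rw [finsum_eq_if]
    split_ifs with h
    · ring
    · rw [h2 v h, mul_zero]
  rw [finsum_congr h3]
  refine tsum_eq_finsum ?_
  refine (E.fin_le (x ^ β)).subset fun v hv => ?_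
  by_contra h
  exact hv (by
    simp only
    rw [h2 v h, mul_zero])

end gen

end Pool.Agent.Y754.BL
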