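import Pool.Agent.Y754.BL.AW
import Pool.Agent.Y697.SL.Main

/-!
# Arbitrary weights, for elliptic curves over number fields
-/

set_option autoImplicit false

namespace Pool.Agent.Y754.BL

open Filter Topology Set NumberField IsDedekindDomain MeasureTheory
open Pool.Agent.TH942.ES
open Pool.Agent.TH942.LS (Wt S)
open Pool.Agent.Y697.DL (NV csys IsL cnt rk order_exists ord_shift log_cnt)
open Pool.Agent.Y697.SL (con_of)
open Pool.Agent.H921R2.TatePole (nm two_le_nm)

variable {K : Type} [Field K] [NumberField K] {a b : 𝓞 K} {F : ℂ → ℂ}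
  {e : {v : HeightOneSpectrum (𝓞 K) // GoodV a b v} → ℕ} {w : ℝ → ℝ} {W β : ℝ}

/-- the finite sum with the weight `w` -/
noncomputable def wsum (a b : 𝓞 K) (w : ℝ → ℝ) (β X : ℝ) : ℝ :=
  ∑ᶠ (v : {v : HeightOneSpectrum (𝓞 K) // GoodV a b v}) (_ : (nm v.1 : ℝ) ≤ X ^ β),
    w (Real.log (nm v.1) / Real.log X) * Real.log (((ptsV a b v.1 + 1 : ℕ) : ℝ) / nm v.1)

theorem wsum_eq (he : Function.Injective e) (hw : Wt w W β) {X : ℝ} (hX : 1 < X) :
    wsum a b w β X = S (lamN (NV a b) e) (cN (NV a b) (alV a b) e) w (Real.log X) := by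
  rw [S_eq_finsum (csys a b) he hw hX]
  unfold wsum
  refine finsum_congr fun v => ?_
  have h1 : cv (NV a b) (alV a b) v = Real.log (((ptsV a b v.1 : ℝ) + 1) / nm v.1) := curve_cv v
  rw [h1]
  unfold NV
  push_cast
  rfl

theorem wsum_exp (he : Function.Injective e) (hw : Wt w W β) {T : ℝ} (hT : 0 < T) :
    wsum a b w β (Real.exp T) = S (lamN (NV a b) e) (cN (NV a b) (alV a b) e) w T := by
  have h1 : 1 < Real.exp T := by
    rw [← Real.exp_zero]
    exact Real.exp_lt_exp.2 hT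
  rw [wsum_eq he hw h1, Real.log_exp]

theorem exists_enum (a b : 𝓞 K) :
    ∃ e : {v : HeightOneSpectrum (𝓞 K) // GoodV a b v} → ℕ, Function.Injective e := by
  have := (csys a b).cnt
  exact Countable.exists_injective_nat _

/-- **bounds for the sums with an arbitrary weight exclude zeros** -/
theorem wzero (hF : IsL a b F) (hw : Wt w W β)
    (htop : ∀ κ, κ < β → ¬ ∀ᵐ x, x ∈ Ioo κ β → w x = 0) {α C : ℝ} (hα : 0 ≤ α)
    (hS : ∀ᶠ X : ℝ in atTop, |wsum a b w β X| ≤ C * X ^ α) {s : ℂ} (hs : 1 + α / β < s.re) :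
    F s ≠ 0 := by
  obtain ⟨e, he⟩ := exists_enum a b
  have hb := hw.b0
  have h1 := zero_free (csys a b) he (con_of hF) hw htop (θ := α / β) (by positivity)
    (fun α' hα' => ?_) (s := s - 1) (by
      rw [Complex.sub_re, Complex.one_re]
      linarith)
  · rwa [add_sub_cancel] at h1
  · have h2 : α < α' := by
      have : β * (α / β) = α := by field_simp
      linarith
    obtain ⟨T₀, hT₀⟩ := (Real.tendsto_exp_atTop.eventually hS).exists_forall_of_atTop
    refine ⟨|C|, max T₀ 1, fun T hT => ?_⟩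
    have h3 : 0 < T := by
      have := (le_max_right T₀ 1).trans hT
      linarith
    have h4 := hT₀ T ((le_max_left _ _).trans hT)
    rw [wsum_exp he hw h3, ← Real.exp_mul] at h4
    refine h4.trans ?_
    have h5 : Real.exp (T * α) ≤ Real.exp (α' * T) := Real.exp_le_exp.2 (by nlinarith)
    have h6 := le_abs_self C
    have h7 := abs_nonneg C
    calc C * Real.exp (T * α) ≤ |C| * Real.exp (T * α) := by gcongr
      _ ≤ _ := by gcongr

/-- **the growth of the sums with an arbitrary weight** -/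
theorem wgrowth (hF : IsL a b F) (hw : Wt w W β)
    (htop : ∀ κ, κ < β → ¬ ∀ᵐ x, x ∈ Ioo κ β → w x = 0)
    (hdini : IntegrableOn (fun u : ℝ => |w u - 1| / u) (Ioo 0 β)) {ρ : ℝ}
    (hlim : Tendsto (fun X : ℝ => wsum a b w β X / Real.log (Real.log X)) atTop (𝓝 ρ)) :
    (∀ s : ℂ, 1 < s.re → F s ≠ 0) ∧ ∃ m : ℕ, analyticOrderAt F 1 = m ∧ ρ = m := by
  obtain ⟨e, he⟩ := exists_enum a b
  have h1 : Tendsto (fun T : ℝ => S (lamN (NV a b) e) (cN (NV a b) (alV a b) e) w T / Real.log T)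
      atTop (𝓝 ρ) := by
    refine (hlim.comp Real.tendsto_exp_atTop).congr' ?_
    filter_upwards [eventually_gt_atTop 0] with T hT
    simp only [Function.comp_apply]
    rw [wsum_exp he hw hT, Real.log_exp]
  have hS := slow_of_log h1
  have h2 : ∀ s : ℂ, 0 < s.re → F (1 + s) ≠ 0 := fun s hs =>
    zero_free (csys a b) he (con_of hF) hw htop (θ := 0) le_rfl
      (fun α' hα' => hS α' (by rwa [mul_zero] at hα')) hs
  refine ⟨fun s hs => ?_, ?_⟩
  · have h3 := h2 (s - 1) (by
      rw [Complex.sub_re, Complex.one_re]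
      linarith)
    rwa [add_sub_cancel] at h3
  · obtain ⟨m, hm⟩ := order_exists hF 1
    refine ⟨m, hm, ?_⟩
    exact growth_eq (csys a b) he (Ψ := fun w => F (1 + w)) hF.cp.ent (con_of hF) h2
      (by rw [ord_shift F, add_zero]; exact hm) hw hdini hS h1

/-- **the comparison with the number of points** -/
theorem wrank (hD : 4 * a ^ 3 + 27 * b ^ 2 ≠ 0) (hF : IsL a b F) (hw : Wt w W β)
    (htop : ∀ κ, κ < β → ¬ ∀ᵐ x, x ∈ Ioo κ β → w x = 0)
    (hdini : IntegrableOn (fun u : ℝ => |w u - 1| / u) (Ioo 0 β))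
    (hlim : Tendsto (fun X : ℝ => (wsum a b w β X - Real.log (cnt a b (Real.log X ^ 2))) /
      Real.log (Real.log X)) atTop (𝓝 0)) :
    (∀ s : ℂ, 1 < s.re → F s ≠ 0) ∧ analyticOrderAt F 1 = rk a b := by
  have h1 := hlim.add (log_cnt hD)
  rw [zero_add] at h1
  obtain ⟨h2, m, hm, h3⟩ := wgrowth hF hw htop hdini (ρ := (rk a b : ℝ)) (h1.congr fun X => by
    rw [← add_div, sub_add_cancel])
  refine ⟨h2, ?_⟩
  have h4 : rk a b = m := by exact_mod_cast h3
  rw [h4]
  exact hm

end Pool.Agent.Y754.BL
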