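import Pool.Agent.TH942.ES.StarExt

/-!
# The limit formula for one parameter

If the sums over the prime powers converge for one value of the parameter, then the Euler product has
a continuation without zeros to the sector, and the constant is determined by the limit.
-/

set_option autoImplicit false

open Filter Topology Set Complex MeasureTheory
open Pool.Agent.TH942.LS (Dat P P_le Cont Qf)
open Pool.Agent.TH942.SL
open Pool.Agent.TH942.ES

namespace Pool.Agent.Y754.BL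

variable {X : Type} {d : ℕ} {N : X → ℕ} {α : X → Fin d → ℂ} {e : X × ℕ → ℕ}

theorem star_tr (E : Sys N α) (he : Function.Injective e) {ρ ρ' : ℝ} (hρ1 : 1 < ρ)
    (hρ' : ρ < ρ') (r : ℕ) (l : ℝ) :
    Tendsto (fun Y : ℝ => StE N α ρ ρ' Y + r * Real.log (Real.log Y)) atTop (𝓝 l) ↔
      Tendsto (fun y : ℝ => M (lamS N e) (cS N α e) ρ⁻¹ y - (-(r : ℝ)) * ρ⁻¹ * Real.log y) atTop
        (𝓝 l) := by
  have hρ0 : 0 < ρ := by linarith
  have hc := E.St_close he hρ1 hρ'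
  have hpow : Tendsto (fun Y : ℝ => Real.log Y ^ ρ) atTop atTop :=
    (tendsto_rpow_atTop hρ0).comp Real.tendsto_log_atTop
  have hid : ∀ Y : ℝ, 1 < Y → ρ⁻¹ * Real.log (Real.log Y ^ ρ) = Real.log (Real.log Y) := by
    intro Y hY
    rw [Real.log_rpow (Real.log_pos hY)]
    field_simp
  constructor
  · intro h1
    have h2 := h1.sub hc
    rw [sub_zero] at h2
    have h3 := h2.comp (Sys.tendsto_exp_rpow hρ1)
    refine h3.congr' ?_
    filter_upwards [eventually_gt_atTop 0] with y hy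
    have e1 := hid (Real.exp (y ^ ρ⁻¹)) (by
      rw [← Real.exp_zero]
      exact Real.exp_lt_exp.2 (by positivity))
    simp only [Function.comp_apply]
    rw [← e1, Sys.pow_log hρ1 hy.le]
    ring
  · intro h1
    have h2 := (h1.comp hpow).add hc
    rw [add_zero] at h2
    refine h2.congr' ?_
    filter_upwards [eventually_gt_atTop 1] with Y hY
    simp only [Function.comp_apply]
    rw [← hid Y hY]
    ring

/-- **one value of the parameter** -/
theorem star_one (E : Sys N α) (hreal : ∀ v k, (∑ i, zv N α v i ^ k).im = 0) {ρ ρ' : ℝ}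
    (hρ : 1 < ρ) (hρ' : ρ < ρ') (r : ℕ) {l : ℝ}
    (h : Tendsto (fun Y : ℝ => StE N α ρ ρ' Y + r * Real.log (Real.log Y)) atTop (𝓝 l)) :
    ∃ G : ℂ → ℂ, (∀ s : ℂ, s ∈ Sect ρ ∨ 1 / 2 < s.re → DifferentiableAt ℂ G s ∧ G s ≠ 0) ∧
      (∀ s : ℂ, 1 / 2 < s.re → G s = LE N α s) ∧
      ∀ ρ₂ : ℝ, ρ < ρ₂ → Tendsto (fun s => G s / s ^ r) (𝓝[Sect ρ₂] 0)
        (𝓝 ((Real.exp (l + r * Real.eulerMascheroniConstant / ρ) : ℝ) : ℂ)) := by
  have := E.cnt
  obtain ⟨e, he⟩ := Countable.exists_injective_nat (X × ℕ)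
  have D := E.datS he (σ := 1) (by norm_num)
  have h1 := (star_tr E he hρ hρ' r l).1 h
  obtain ⟨Dh, hD1, hD2, hD3⟩ := ext_sector_lim D hρ h1
  set κ : ℝ := l + r * Real.eulerMascheroniConstant / ρ with hκ
  have hρ0 : (ρ : ℝ) ≠ 0 := by linarith
  have h2 := (sect_equiv D (ρ₀ := ρ) hρ.le (-(r : ℝ)) κ).2 ⟨Dh, hD1, hD2, fun ρ₂ hρ₂ => by
    have h3 := hD3 ρ₂ hρ₂
    have e1 : -(r : ℝ) * ρ⁻¹ * ρ = -(r : ℝ) := by field_simp
    have e2 : l - -(r : ℝ) * ρ⁻¹ * Real.eulerMascheroniConstant = κ := by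
      rw [hκ, div_eq_mul_inv]
      ring
    rw [e1, e2] at h3
    exact h3⟩
  have h3 : ∀ ρ₂ ρ₂' : ℝ, ρ < ρ₂ → ρ₂ < ρ₂' →
      Tendsto (fun Y : ℝ => StE N α ρ₂ ρ₂' Y + r * Real.log (Real.log Y)) atTop
        (𝓝 (Real.log (Real.exp κ) - r * Real.eulerMascheroniConstant / ρ₂)) := by
    intro ρ₂ ρ₂' hρ₂ hρ₂'
    rw [star_tr E he (hρ.trans hρ₂) hρ₂' r]
    have h4 := h2 ρ₂ hρ₂
    have e3 : κ + -(r : ℝ) * ρ₂⁻¹ * Real.eulerMascheroniConstant =
        Real.log (Real.exp κ) - r * Real.eulerMascheroniConstant / ρ₂ := by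
      rw [Real.log_exp, div_eq_mul_inv]
      ring
    rw [e3] at h4
    exact h4
  exact (E.star_equiv hreal hρ.le r (Real.exp_pos κ)).1 h3

end Pool.Agent.Y754.BL
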