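import Pool.Agent.Y697.SL.Main
import Pool.Agent.Y754.BL.Star
import Pool.Agent.TH942.Ner

/-!
# The leading coefficient as a limit of finite sums and the number of points

Elliptic curves `y² = x³ + a x + b` over a number field.
-/

set_option autoImplicit false

namespace Pool.Agent.Y754.BL

open Filter Topology Set NumberField IsDedekindDomain
open Pool.Agent.TH942 (SPt sht IsBasisModTors gram ballVol ballVol_pos neron sfinite_ht q_comb)
open Pool.Agent.TH942.ES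
open Pool.Agent.TH942.SL (Sect wml sect_re sect_real sect_open sect_mono)
open Pool.Agent.TH270.SH (ZF)
open Pool.Agent.Y697.DL (NV csys IsL cnt)
open Pool.Agent.Y697.SL (ZFree zfree_of_zf zf_of_zfree thin)
open Pool.Agent.H921R2.TatePole (nm two_le_nm)

variable {K : Type} [Field K] [NumberField K] {a b : 𝓞 K} {F : ℂ → ℂ}

/-! ### the sums over the prime powers -/

/-- the sums of the powers of the two roots of `T² - t T + q` -/
def pw (t q : ℝ) : ℕ → ℝ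
  | 0 => 2
  | 1 => t
  | (k + 2) => t * pw t q (k + 1) - q * pw t q k

/-- the finite sum over the prime powers -/
noncomputable def psum (a b : 𝓞 K) (ρ ρ' Y : ℝ) : ℝ :=
  ∑ᶠ (p : {v : HeightOneSpectrum (𝓞 K) // GoodV a b v} × ℕ)
    (_ : (nm p.1.1 : ℝ) ^ (p.2 + 1) ≤ Real.exp (Real.log Y ^ ρ')),
    wml ρ⁻¹ (((p.2 : ℝ) + 1) * Real.log (nm p.1.1) / Real.log Y) *
      (pw ((nm p.1.1 : ℝ) + 1 - ((ptsV a b p.1.1 + 1 : ℕ) : ℝ)) (nm p.1.1) (p.2 + 1) /
        (((p.2 : ℝ) + 1) * (nm p.1.1 : ℝ) ^ (p.2 + 1)))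

lemma rt_mul {t : ℝ} (ht : |t| ≤ 1) : rt t 0 * rt t 1 = 1 := by
  have h := rt_prod ht 1
  have e0 : rt t 0 = t + √(1 - t ^ 2) * Complex.I := rfl
  have e1 : rt t 1 = t - √(1 - t ^ 2) * Complex.I := rfl
  have h1 : rt t 0 + rt t 1 = 2 * t := by rw [e0, e1]; ring
  linear_combination h + h1

lemma rt_add (t : ℝ) : rt t 0 + rt t 1 = 2 * t := by
  have e0 : rt t 0 = t + √(1 - t ^ 2) * Complex.I := rfl
  have e1 : rt t 1 = t - √(1 - t ^ 2) * Complex.I := rfl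
  rw [e0, e1]
  ring

/-- the sums of the powers of the local roots -/
theorem zv_pow (v : {v : HeightOneSpectrum (𝓞 K) // GoodV a b v}) (k : ℕ) :
    ∑ i, zv (NV a b) (alV a b) v i ^ k =
      ((pw ((nm v.1 : ℝ) + 1 - ((ptsV a b v.1 + 1 : ℕ) : ℝ)) (nm v.1) k / (nm v.1 : ℝ) ^ k : ℝ) : ℂ) := by
  have hp2 : (2 : ℝ) ≤ nm v.1 := by exact_mod_cast two_le_nm v.1
  have hn0 : (0 : ℝ) < nm v.1 := by linarith
  have h1 := sqrt_nm_pos v.1
  have h1c : ((√(nm v.1 : ℝ) : ℝ) : ℂ) ≠ 0 := by exact_mod_cast h1.ne'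
  have hnc : (nm v.1 : ℂ) ≠ 0 := by exact_mod_cast hn0.ne'
  have h2 : ((√(nm v.1 : ℝ) : ℝ) : ℂ) ^ 2 = nm v.1 := by
    rw [← Complex.ofReal_pow, Real.sq_sqrt hn0.le]
    push_cast
    rfl
  rw [Fin.sum_univ_two]
  set z0 : ℂ := zv (NV a b) (alV a b) v 0 with hz0
  set z1 : ℂ := zv (NV a b) (alV a b) v 1 with hz1
  have e0 : z0 = rt (trV a b v.1) 0 / ((√(nm v.1 : ℝ) : ℝ) : ℂ) := rfl
  have e1 : z1 = rt (trV a b v.1) 1 / ((√(nm v.1 : ℝ) : ℝ) : ℂ) := rfl
  have hmul : z0 * z1 = 1 / (nm v.1 : ℂ) := by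
    rw [e0, e1, div_mul_div_comm, rt_mul (trV_abs v.2), ← sq, h2]
  have hadd : z0 + z1 = ((nm v.1 : ℂ) - ptsV a b v.1) / (nm v.1 : ℂ) := by
    rw [e0, e1, ← add_div, rt_add]
    unfold trV
    push_cast
    rw [← h2]
    field_simp
  set t : ℝ := (nm v.1 : ℝ) + 1 - ((ptsV a b v.1 + 1 : ℕ) : ℝ) with ht
  have htc : (t : ℂ) = (nm v.1 : ℂ) - ptsV a b v.1 := by
    rw [ht]
    push_cast
    ring
  induction k using Nat.strong_induction_on with
  | _ k ih =>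
    match k with
    | 0 =>
      simp only [pow_zero, pw]
      norm_num
    | 1 =>
      simp only [pow_one, pw]
      push_cast
      rw [hadd, htc]
    | (k + 2) =>
      have i0 := ih k (by omega)
      have i1 := ih (k + 1) (by omega)
      have e2 : z0 ^ (k + 2) + z1 ^ (k + 2) =
          (z0 + z1) * (z0 ^ (k + 1) + z1 ^ (k + 1)) - z0 * z1 * (z0 ^ k + z1 ^ k) := by ring
      rw [e2, i0, i1, hadd, hmul, ← htc]
      simp only [pw]
      push_cast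
      field_simp
      ring

theorem zv_im (v : {v : HeightOneSpectrum (𝓞 K) // GoodV a b v}) (k : ℕ) :
    (∑ i, zv (NV a b) (alV a b) v i ^ k).im = 0 := by
  rw [zv_pow, Complex.ofReal_im]

theorem psum_eq (ρ ρ' Y : ℝ) : psum a b ρ ρ' Y = StE (NV a b) (alV a b) ρ ρ' Y := by
  unfold psum StE
  refine finsum_congr fun p => ?_
  refine finsum_congr_Prop rfl fun _ => ?_
  unfold cP
  rw [zv_pow, Complex.ofReal_re]
  unfold NV
  congr 1
  rw [div_div, mul_comm ((p.2 : ℝ) + 1)]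

/-! ### the number of points -/

/-- the constant of the count of points -/
noncomputable def kap (T : ℕ) (r : ℕ) (R : ℝ) : ℝ := T * ballVol r / √R

open Classical in
/-- **the theorem of Néron** for the number of points, in logarithmic form -/
theorem ner_log (hD : 4 * a ^ 3 + 27 * b ^ 2 ≠ 0) :
    ∃ q : SPt (a : K) (b : K) → ℝ,
      (∀ P, Tendsto (fun k : ℕ => sht ((2 ^ k : ℕ) • P) / 4 ^ k) atTop (𝓝 (q P))) ∧
      ∀ (r : ℕ) (g : Fin r → SPt (a : K) (b : K)), IsBasisModTors g →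
        0 < (gram q g).det ∧
        0 < kap (Nat.card {t : SPt (a : K) (b : K) // IsOfFinAddOrder t}) r (gram q g).det ∧
        Tendsto (fun Y : ℝ => Real.log (cnt a b (Real.log Y ^ 2)) - r * Real.log (Real.log Y)) atTop
          (𝓝 (Real.log (kap (Nat.card {t : SPt (a : K) (b : K) // IsOfFinAddOrder t}) r
            (gram q g).det))) := by
  have hD' : 4 * (a : K) ^ 3 + 27 * (b : K) ^ 2 ≠ 0 := by
    intro h
    apply hD
    apply RingOfIntegers.coe_injective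
    rw [map_zero, map_add, map_mul, map_mul, map_pow, map_pow, map_ofNat, map_ofNat]
    exact h
  obtain ⟨q, C, h1, h2, h3, h4, h5⟩ := neron hD'
  refine ⟨q, h4, fun r g hg => ?_⟩
  obtain ⟨h6, h7⟩ := h5 (Fin r) g hg
  have h8 : Finite {t : SPt (a : K) (b : K) // IsOfFinAddOrder t} := by
    have : {t : SPt (a : K) (b : K) | IsOfFinAddOrder t} ⊆ {P | sht P ≤ C} := by
      intro t ht
      have h9 := q_comb q h2 g t ht 0
      simp only [Pi.zero_apply, zero_smul, Finset.sum_const_zero, zero_add, Int.cast_zero,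
        zero_mul] at h9
      have h10 := abs_le.1 (h3 t)
      simp only [Set.mem_ofPred_eq]
      linarith
    exact ((sfinite_ht C).subset this).to_subtype
  have h9 : 0 < Nat.card {t : SPt (a : K) (b : K) // IsOfFinAddOrder t} := by
    have : Nonempty {t : SPt (a : K) (b : K) // IsOfFinAddOrder t} := ⟨⟨0, IsOfFinAddOrder.zero⟩⟩
    exact Nat.card_pos
  have h11 : (0 : ℝ) < Nat.card {t : SPt (a : K) (b : K) // IsOfFinAddOrder t} := by
    exact_mod_cast h9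
  have h12 : 0 < kap (Nat.card {t : SPt (a : K) (b : K) // IsOfFinAddOrder t}) r
      (gram q g).det := by
    have := ballVol_pos r
    unfold kap
    positivity
  refine ⟨h6, h12, ?_⟩
  rw [Fintype.card_fin] at h7
  have h13 : Tendsto (fun Y : ℝ => Real.log Y ^ 2) atTop atTop :=
    (tendsto_pow_atTop two_ne_zero).comp Real.tendsto_log_atTop
  have h14 := (h7.comp h13).log h12.ne'
  refine h14.congr' ?_
  have h15 : ∀ᶠ B : ℝ in atTop, 0 < (Nat.card {P : SPt (a : K) (b : K) // sht P ≤ B} : ℝ) /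
      B ^ ((r : ℝ) / 2) := h7.eventually (lt_mem_nhds h12)
  filter_upwards [h13.eventually h15, Real.tendsto_log_atTop.eventually_gt_atTop 0] with Y h16 h17
  simp only [Function.comp_apply]
  have h18 : 0 < (Real.log Y ^ 2) ^ ((r : ℝ) / 2) := by positivity
  have h19 : (0 : ℝ) < Nat.card {P : SPt (a : K) (b : K) // sht P ≤ Real.log Y ^ 2} := by
    rcases (div_pos_iff.1 h16) with h | h
    · exact h.1
    · exact absurd h.2 (not_lt.2 h18.le)
  rw [Real.log_div h19.ne' h18.ne', Real.log_rpow (by positivity), Real.log_pow]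
  have e1 : (r : ℝ) / 2 * (((2 : ℕ) : ℝ) * Real.log (Real.log Y)) = r * Real.log (Real.log Y) := by
    push_cast
    ring
  rw [e1]
  rfl

/-! ### translation -/

/-- the limit of a quotient at the vertex `1` -/
theorem lim_shift {G : ℂ → ℂ} {U : Set ℂ} {r : ℕ} {A : ℂ} :
    Tendsto (fun s => G s / (s - 1) ^ r) (𝓝[{s | s - 1 ∈ U}] 1) (𝓝 A) ↔
      Tendsto (fun w => G (1 + w) / w ^ r) (𝓝[U] 0) (𝓝 A) := by
  constructor
  · intro h
    have h1 : Tendsto (fun w : ℂ => 1 + w) (𝓝[U] 0) (𝓝[{s | s - 1 ∈ U}] 1) := by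
      refine tendsto_nhdsWithin_iff.2 ⟨?_, ?_⟩
      · have h2 : Tendsto (fun w : ℂ => 1 + w) (𝓝 0) (𝓝 (1 + 0)) :=
          (by fun_prop : Continuous fun w : ℂ => 1 + w).tendsto 0
        rw [add_zero] at h2
        exact h2.mono_left nhdsWithin_le_nhds
      · filter_upwards [self_mem_nhdsWithin] with w hw
        simpa using hw
    refine (h.comp h1).congr fun w => ?_
    simp only [Function.comp_apply, add_sub_cancel_left]
  · intro h
    have h1 : Tendsto (fun s : ℂ => s - 1) (𝓝[{s | s - 1 ∈ U}] 1) (𝓝[U] 0) := by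
      refine tendsto_nhdsWithin_iff.2 ⟨?_, ?_⟩
      · have h2 : Tendsto (fun s : ℂ => s - 1) (𝓝 1) (𝓝 (1 - 1)) :=
          (by fun_prop : Continuous fun s : ℂ => s - 1).tendsto 1
        rw [sub_self] at h2
        exact h2.mono_left nhdsWithin_le_nhds
      · filter_upwards [self_mem_nhdsWithin] with w hw
        exact hw
    refine (h.comp h1).congr fun w => ?_
    simp only [Function.comp_apply, add_sub_cancel]

/-- a zero-free continuation to the sector with the leading term `A (s - 1) ^ r` -/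
def Lead (a b : 𝓞 K) (ρ₀ : ℝ) (r : ℕ) (A : ℝ) (G : ℂ → ℂ) : Prop :=
  ZFree a b (Sect ρ₀) G ∧
    ∀ ρ : ℝ, ρ₀ < ρ → Tendsto (fun s => G s / (s - 1) ^ r) (𝓝[{s | s - 1 ∈ Sect ρ}] 1) (𝓝 (A : ℂ))

theorem lead_iff {ρ₀ : ℝ} {r : ℕ} {A : ℝ} : (∃ G, Lead a b ρ₀ r A G) ↔
    ∃ G : ℂ → ℂ, (∀ s : ℂ, s ∈ Sect ρ₀ ∨ 1 / 2 < s.re → DifferentiableAt ℂ G s ∧ G s ≠ 0) ∧
      (∀ s : ℂ, 1 / 2 < s.re → G s = LE (NV a b) (alV a b) s) ∧
      ∀ ρ : ℝ, ρ₀ < ρ → Tendsto (fun s => G s / s ^ r) (𝓝[Sect ρ] 0) (𝓝 (A : ℂ)) := by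
  constructor
  · rintro ⟨G, h1, h2⟩
    have h3 := zf_of_zfree h1
    exact ⟨_, h3.1, h3.2, fun ρ hρ => lim_shift.1 (h2 ρ hρ)⟩
  · rintro ⟨G, h1, h2, h3⟩
    refine ⟨fun s => G (s - 1), zfree_of_zf ⟨h1, h2⟩, fun ρ hρ => ?_⟩
    rw [lim_shift]
    simp only [add_sub_cancel_left]
    exact h3 ρ hρ

/-- the law for one pair of parameters -/
def Lw (a b : 𝓞 K) (ρ ρ' l : ℝ) : Prop :=
  Tendsto (fun Y : ℝ => psum a b ρ ρ' Y + Real.log (cnt a b (Real.log Y ^ 2))) atTop (𝓝 l)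

theorem lw_iff {r : ℕ} {κ : ℝ}
    (h : Tendsto (fun Y : ℝ => Real.log (cnt a b (Real.log Y ^ 2)) - r * Real.log (Real.log Y)) atTop
      (𝓝 (Real.log κ))) (ρ ρ' l : ℝ) :
    Lw a b ρ ρ' l ↔ Tendsto (fun Y : ℝ => StE (NV a b) (alV a b) ρ ρ' Y +
      r * Real.log (Real.log Y)) atTop (𝓝 (l - Real.log κ)) := by
  unfold Lw
  simp only [psum_eq]
  constructor
  · intro h1
    refine (h1.sub h).congr fun Y => ?_
    ring
  · intro h1
    have h2 := h1.add h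
    rw [sub_add_cancel] at h2
    refine h2.congr fun Y => ?_
    ring

/-- **all parameters** -/
theorem law_all {r : ℕ} {κ : ℝ} (hκ : 0 < κ)
    (h : Tendsto (fun Y : ℝ => Real.log (cnt a b (Real.log Y ^ 2)) - r * Real.log (Real.log Y)) atTop
      (𝓝 (Real.log κ))) {ρ₀ : ℝ} (hρ₀ : 1 ≤ ρ₀) {A : ℝ} (hA : 0 < A) :
    (∀ ρ ρ' : ℝ, ρ₀ < ρ → ρ < ρ' →
      Lw a b ρ ρ' (Real.log (A * κ) - r * Real.eulerMascheroniConstant / ρ)) ↔
      ∃ G, Lead a b ρ₀ r A G := by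
  rw [lead_iff, ← (csys a b).star_equiv zv_im hρ₀ r hA]
  have e1 : ∀ ρ : ℝ, Real.log (A * κ) - r * Real.eulerMascheroniConstant / ρ - Real.log κ =
      Real.log A - r * Real.eulerMascheroniConstant / ρ := fun ρ => by
    rw [Real.log_mul hA.ne' hκ.ne']
    ring
  simp only [lw_iff h, e1]

/-- **one pair of parameters** -/
theorem law_one {r : ℕ} {κ : ℝ} (hκ : 0 < κ)
    (h : Tendsto (fun Y : ℝ => Real.log (cnt a b (Real.log Y ^ 2)) - r * Real.log (Real.log Y)) atTop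
      (𝓝 (Real.log κ))) {ρ ρ' l : ℝ} (hρ : 1 < ρ) (hρ' : ρ < ρ') (hl : Lw a b ρ ρ' l) :
    ∃ G, Lead a b ρ r (Real.exp (l + r * Real.eulerMascheroniConstant / ρ) / κ) G := by
  rw [lead_iff]
  rw [lw_iff h] at hl
  obtain ⟨G, h1, h2, h3⟩ := star_one (csys a b) zv_im hρ hρ' r hl
  have e1 : Real.exp (l - Real.log κ + r * Real.eulerMascheroniConstant / ρ) =
      Real.exp (l + r * Real.eulerMascheroniConstant / ρ) / κ := by
    rw [sub_add_eq_add_sub, Real.exp_sub, Real.exp_log hκ]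
  rw [e1] at h3
  exact ⟨G, h1, h2, h3⟩

/-! ### entire continuations -/

/-- the continuation to a sector agrees with the entire continuation -/
theorem agree_F (hF : IsL a b F) {ρ₀ : ℝ} (hρ₀ : 1 ≤ ρ₀) {G : ℂ → ℂ}
    (hG : ZFree a b (Sect ρ₀) G) : ∀ w ∈ Sect ρ₀, G (1 + w) = F (1 + w) := by
  intro w hw
  obtain ⟨ρ, h1, h2⟩ := exists_sect' hρ₀ hw
  have hρ1 : 1 < ρ := by linarith
  have hsub := sect_mono' hρ₀ h1.le
  refine Sys.agree hρ1 (G₁ := fun w => G (1 + w)) (G₂ := fun w => F (1 + w)) ?_ ?_ (σ := 1 / 2) ?_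
    w h2
  · intro s hs
    have h3 : s ∈ Sect ρ₀ := hsub hs
    exact ((zf_of_zfree hG).1 s (Or.inl h3)).1
  · intro s _
    exact (hF.cp.ent).differentiableAt
  · intro s _ hs
    have h3 := hG.2 (1 + s) (by rw [Complex.add_re, Complex.one_re]; linarith)
    have h4 := hF.2 (1 + s) (by rw [Complex.add_re, Complex.one_re]; linarith)
    exact h3.unique h4

theorem zfree_F (hF : IsL a b F) {ρ₀ : ℝ}
    (h : ∀ s : ℂ, s - 1 ∈ Sect ρ₀ → F s ≠ 0) : ZFree a b (Sect ρ₀) F := by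
  refine ⟨fun s hs => ⟨hF.1.differentiableAt, ?_⟩, hF.2⟩
  rcases hs with hs | hs
  · exact h s hs
  · have h1 := Pool.Agent.Y697.DL.ne_zero (csys a b) hF.cp (w := s - 1) (by
      rw [Complex.sub_re, Complex.one_re]
      linarith)
    rwa [add_sub_cancel] at h1

/-- an analytic function with the leading term `A w^r` on the positive reals -/
theorem lead_full {f : ℂ → ℂ} (hf : AnalyticAt ℂ f 0) {r : ℕ} {A : ℝ} (hA : A ≠ 0)
    (h : Tendsto (fun x : ℝ => f x / (x : ℂ) ^ r) (𝓝[>] 0) (𝓝 (A : ℂ))) :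
    Tendsto (fun w => f w / w ^ r) (𝓝[≠] 0) (𝓝 (A : ℂ)) := by
  have hAc : (A : ℂ) ≠ 0 := by exact_mod_cast hA
  have hx0 : Tendsto (fun x : ℝ => (x : ℂ)) (𝓝[>] 0) (𝓝 0) := by
    have := (Complex.continuous_ofReal.tendsto 0)
    rw [Complex.ofReal_zero] at this
    exact this.mono_left nhdsWithin_le_nhds
  have hxn : Tendsto (fun x : ℝ => (x : ℂ)) (𝓝[>] 0) (𝓝[≠] 0) := by
    refine tendsto_nhdsWithin_iff.2 ⟨hx0, ?_⟩
    filter_upwards [self_mem_nhdsWithin] with x hx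
    have : (0 : ℝ) < x := hx
    have h2 : x ≠ 0 := this.ne'
    simpa using h2
  by_cases htop : analyticOrderAt f 0 = ⊤
  · exfalso
    rw [analyticOrderAt_eq_top] at htop
    have h1 : ∀ᶠ x : ℝ in 𝓝[>] 0, f x = 0 := hx0.eventually htop
    have h2 : Tendsto (fun x : ℝ => f x / (x : ℂ) ^ r) (𝓝[>] 0) (𝓝 0) := by
      refine (tendsto_const_nhds (x := (0 : ℂ))).congr' ?_
      filter_upwards [h1] with x hx
      rw [hx, zero_div]
    exact hAc (tendsto_nhds_unique h h2)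
  obtain ⟨n, hn⟩ := ENat.ne_top_iff_exists.1 htop
  obtain ⟨g, hg, hg0, hfg⟩ := (hf.analyticOrderAt_eq_natCast (n := n)).1 hn.symm
  have hgc : Tendsto g (𝓝 0) (𝓝 (g 0)) := hg.continuousAt
  have hfx : ∀ᶠ x : ℝ in 𝓝[>] 0, f x = (x : ℂ) ^ n * g x ∧ (x : ℂ) ≠ 0 := by
    filter_upwards [hx0.eventually hfg, self_mem_nhdsWithin] with x hx hx2
    have hx3 : (0 : ℝ) < x := hx2
    refine ⟨?_, by exact_mod_cast hx3.ne'⟩
    rw [hx, sub_zero, smul_eq_mul]
  have hgx : Tendsto (fun x : ℝ => g x) (𝓝[>] 0) (𝓝 (g 0)) := hgc.comp hx0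
  have hnr : n = r := by
    rcases lt_trichotomy n r with hlt | heq | hgt
    · exfalso
      obtain ⟨m, rfl⟩ : ∃ m, r = n + (m + 1) := ⟨r - n - 1, by omega⟩
      have h1 : Tendsto (fun x : ℝ => f x / (x : ℂ) ^ (n + (m + 1)) * (x : ℂ) ^ (m + 1)) (𝓝[>] 0)
          (𝓝 ((A : ℂ) * 0 ^ (m + 1))) := h.mul (hx0.pow _)
      rw [zero_pow (by omega), mul_zero] at h1
      have h2 : (fun x : ℝ => f x / (x : ℂ) ^ (n + (m + 1)) * (x : ℂ) ^ (m + 1)) =ᶠ[𝓝[>] 0]
          fun x : ℝ => g x := by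
        filter_upwards [hfx] with x hx
        rw [hx.1, pow_add]
        have := hx.2
        field_simp
      exact hg0 (tendsto_nhds_unique hgx (h1.congr' h2))
    · exact heq
    · exfalso
      obtain ⟨m, rfl⟩ : ∃ m, n = r + (m + 1) := ⟨n - r - 1, by omega⟩
      have h1 : Tendsto (fun x : ℝ => (x : ℂ) ^ (m + 1) * g x) (𝓝[>] 0)
          (𝓝 (0 ^ (m + 1) * g 0)) := (hx0.pow _).mul hgx
      rw [zero_pow (by omega), zero_mul] at h1
      have h2 : (fun x : ℝ => (x : ℂ) ^ (m + 1) * g x) =ᶠ[𝓝[>] 0]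
          fun x : ℝ => f x / (x : ℂ) ^ r := by
        filter_upwards [hfx] with x hx
        rw [hx.1, pow_add]
        have := hx.2
        field_simp
        ring
      exact hAc (tendsto_nhds_unique h (h1.congr' h2))
  subst hnr
  have hgA : g 0 = A := by
    refine tendsto_nhds_unique hgx (h.congr' ?_)
    filter_upwards [hfx] with x hx
    rw [hx.1]
    have := hx.2
    field_simp
  rw [← hgA]
  refine (hgc.mono_left nhdsWithin_le_nhds).congr' ?_
  filter_upwards [nhdsWithin_le_nhds hfg, self_mem_nhdsWithin] with w hw hw0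
  have hw1 : w ≠ 0 := hw0
  rw [hw, sub_zero, smul_eq_mul]
  field_simp

/-- the sector limit of an entire continuation is a full limit -/
theorem full_F (hF : IsL a b F) {ρ : ℝ} (hρ : 1 < ρ) {r : ℕ} {A : ℝ} (hA : A ≠ 0)
    (h : Tendsto (fun w => F (1 + w) / w ^ r) (𝓝[Sect ρ] 0) (𝓝 (A : ℂ))) :
    Tendsto (fun s => F s / (s - 1) ^ r) (𝓝[≠] 1) (𝓝 (A : ℂ)) := by
  have h0 : AnalyticAt ℂ (fun w => F (1 + w)) 0 := (hF.cp.ent).analyticAt 0
  have h1 := lead_full h0 hA (r := r) (by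
    refine h.comp (tendsto_nhdsWithin_iff.2 ⟨?_, ?_⟩)
    · have := (Complex.continuous_ofReal.tendsto 0)
      rw [Complex.ofReal_zero] at this
      exact this.mono_left nhdsWithin_le_nhds
    · filter_upwards [self_mem_nhdsWithin] with x hx
      exact sect_real hρ hx)
  have h2 : ({1}ᶜ : Set ℂ) = {s | s - 1 ∈ ({0}ᶜ : Set ℂ)} := by
    ext s
    simp [sub_eq_zero]
  rw [h2, lim_shift]
  exact h1

theorem sect_F {r : ℕ} {A : ℝ} (h : Tendsto (fun s => F s / (s - 1) ^ r) (𝓝[≠] 1) (𝓝 (A : ℂ)))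
    (ρ : ℝ) : Tendsto (fun s => F s / (s - 1) ^ r) (𝓝[{s | s - 1 ∈ Sect ρ}] 1) (𝓝 (A : ℂ)) := by
  refine h.mono_left (nhdsWithin_mono _ ?_)
  intro s hs
  have h1 : s - 1 ≠ 0 := hs.1
  simpa [sub_eq_zero] using h1

/-- **entire continuations: all parameters** -/
theorem law_F (hF : IsL a b F) {r : ℕ} {κ : ℝ} (hκ : 0 < κ)
    (h : Tendsto (fun Y : ℝ => Real.log (cnt a b (Real.log Y ^ 2)) - r * Real.log (Real.log Y)) atTop
      (𝓝 (Real.log κ))) {ρ₀ : ℝ} (hρ₀ : 1 ≤ ρ₀) {A : ℝ} (hA : 0 < A) :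
    (∀ ρ ρ' : ℝ, ρ₀ < ρ → ρ < ρ' →
      Lw a b ρ ρ' (Real.log (A * κ) - r * Real.eulerMascheroniConstant / ρ)) ↔
      (∀ s : ℂ, s - 1 ∈ Sect ρ₀ → F s ≠ 0) ∧
        Tendsto (fun s => F s / (s - 1) ^ r) (𝓝[≠] 1) (𝓝 (A : ℂ)) := by
  rw [law_all hκ h hρ₀ hA]
  constructor
  · rintro ⟨G, h1, h2⟩
    have h3 := agree_F hF hρ₀ h1
    refine ⟨fun s hs => ?_, ?_⟩
    · have h4 := h3 (s - 1) hs
      rw [add_sub_cancel] at h4
      rw [← h4]
      exact (h1.1 s (Or.inl hs)).2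
    · have h5 := lim_shift.1 (h2 (ρ₀ + 1) (by linarith))
      refine full_F hF (ρ := ρ₀ + 1) (by linarith) hA.ne' (h5.congr' ?_)
      filter_upwards [self_mem_nhdsWithin] with w hw
      rw [h3 w (sect_mono' hρ₀ (by linarith) hw)]
  · rintro ⟨h1, h2⟩
    exact ⟨F, zfree_F hF h1, fun ρ _ => sect_F h2 ρ⟩

/-- **entire continuations without zeros on the real line: one pair of parameters** -/
theorem law_thin (hF : IsL a b F) {r : ℕ} {κ : ℝ} (hκ : 0 < κ)
    (h : Tendsto (fun Y : ℝ => Real.log (cnt a b (Real.log Y ^ 2)) - r * Real.log (Real.log Y)) atTop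
      (𝓝 (Real.log κ))) (hr : ∀ x : ℝ, 1 < x → x ≤ 3 / 2 → F x ≠ 0) :
    ∃ ρ₁ : ℝ, 1 < ρ₁ ∧ ∀ ρ ρ' A : ℝ, ρ₁ < ρ → ρ < ρ' → 0 < A →
      (Tendsto (fun s => F s / (s - 1) ^ r) (𝓝[≠] 1) (𝓝 (A : ℂ)) ↔
        Lw a b ρ ρ' (Real.log (A * κ) - r * Real.eulerMascheroniConstant / ρ)) := by
  obtain ⟨ρ₁, h1, h2⟩ := thin hF hr
  refine ⟨ρ₁, h1, fun ρ ρ' A hρ hρ' hA => ⟨fun h3 => ?_, fun h3 => ?_⟩⟩
  · exact (law_F hF hκ h (ρ₀ := ρ₁) h1.le hA).2 ⟨fun s hs => h2 ρ₁ le_rfl s hs, h3⟩ ρ ρ' hρ hρ'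
  · have hρ1 : 1 < ρ := h1.trans hρ
    obtain ⟨G, h4, h5⟩ := law_one hκ h hρ1 hρ' h3
    have e1 : Real.exp (Real.log (A * κ) - r * Real.eulerMascheroniConstant / ρ +
        r * Real.eulerMascheroniConstant / ρ) / κ = A := by
      rw [sub_add_cancel, Real.exp_log (by positivity)]
      field_simp
    rw [e1] at h5
    have h6 := agree_F hF hρ1.le h4
    have h7 := lim_shift.1 (h5 (ρ + 1) (by linarith))
    refine full_F hF (ρ := ρ + 1) (by linarith) hA.ne' (h7.congr' ?_)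
    filter_upwards [self_mem_nhdsWithin] with w hw
    rw [h6 w (sect_mono' hρ1.le (by linarith) hw)]

end Pool.Agent.Y754.BL
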